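import Mathlib

/-! Abstract measure theory for the averaging step. -/

namespace Pool.Agent.MP_3ee8cb_gt.D3.SI

open Set MeasureTheory Function Metric

/-- A differentiable bijection that preserves a density preserves the measure. -/
theorem mp_of_det {E : Type} [NormedAddCommGroup E] [NormedSpace ℝ E] [FiniteDimensional ℝ E]
    [MeasurableSpace E] [BorelSpace E] (μ : Measure E) [μ.IsAddHaarMeasure] (f : E → E)
    (hf : Differentiable ℝ f) (hb : Bijective f) (ρ : E → ℝ)
    (h : ∀ x, ρ (f x) * |(fderiv ℝ f x).det| = ρ x) :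
    MeasurePreserving f (μ.withDensity fun x => ENNReal.ofReal (ρ x))
      (μ.withDensity fun x => ENNReal.ofReal (ρ x)) := by
  have hm := hf.continuous.measurable
  refine ⟨hm, Measure.ext fun s hs => ?_⟩
  rw [Measure.map_apply hm hs, withDensity_apply _ (hm hs), withDensity_apply _ hs]
  have e := lintegral_image_eq_lintegral_abs_det_fderiv_mul μ (hm hs)
    (fun x _ => (hf x).hasFDerivAt.hasFDerivWithinAt) hb.1.injOn fun x => ENNReal.ofReal (ρ x)
  rw [image_preimage_eq s hb.2] at e
  rw [e]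
  refine lintegral_congr fun x => ?_
  rw [← ENNReal.ofReal_mul (abs_nonneg _), mul_comm, h]

/-- An equivariant measure preserving bijection preserves integrals over a fundamental domain. -/
theorem avg {X Γ : Type} [MeasurableSpace X] [Group Γ] [Countable Γ] (μ : Measure X)
    (a : Γ → X → X) (h1 : ∀ x, a 1 x = x) (hm : ∀ γ δ x, a (γ * δ) x = a γ (a δ x))
    (ha : ∀ γ, MeasurePreserving (a γ) μ μ) (D : Set X) (hD : MeasurableSet D)
    (cov : ∀ x, ∃ γ, a γ x ∈ D) (un : ∀ γ x, x ∈ D → a γ x ∈ D → γ = 1) (e : X ≃ᵐ X)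
    (he : MeasurePreserving e μ μ) (hc : ∀ γ x, e (a γ x) = a γ (e x)) (u : X → ℝ)
    (hu : ∀ γ x, u (a γ x) = u x) : ∫ x in D, u (e x) ∂μ = ∫ x in D, u x ∂μ := by
  let _ : MulAction Γ X := { smul := a, one_smul := h1, mul_smul := hm }
  have es : ∀ (γ : Γ) (x : X), γ • x = a γ x := fun _ _ => rfl
  have : MeasurableConstSMul Γ X := ⟨fun γ => (ha γ).measurable⟩
  have : SMulInvariantMeasure Γ X μ := ⟨fun γ s hs => (ha γ).measure_preimage hs.nullMeasurableSet⟩
  have f1 : IsFundamentalDomain Γ D μ := by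
    refine IsFundamentalDomain.mk' hD.nullMeasurableSet fun x => ?_
    obtain ⟨γ, hγ⟩ := cov x
    refine ⟨γ, hγ, fun δ hδ => ?_⟩
    have := un (δ * γ⁻¹) (a γ x) hγ (by rw [← hm, inv_mul_cancel_right]; exact hδ)
    exact mul_inv_eq_one.1 this
  have f2 : IsFundamentalDomain Γ (e ⁻¹' D) μ :=
    f1.preimage_of_equiv he.quasiMeasurePreserving (e := id) bijective_id fun γ x => hc γ x
  rw [f1.setIntegral_eq f2 (f := fun x => u (e x)) fun γ x => by rw [es, hc, hu]]
  exact he.setIntegral_preimage_emb e.measurableEmbedding u D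

/-- Integration of the inequality along the flow. -/
theorem flow_le {X : Type} [MeasurableSpace X] (ν : Measure X) [IsFiniteMeasure ν]
    (Z : ℝ → X → X) (hZ : Measurable fun p : ℝ × X => Z p.1 p.2) (F H : X → ℝ)
    (mF : Measurable F) (mH : Measurable H) (C : ℝ) (bF : ∀ x, |F x| ≤ C) (bH : ∀ x, |H x| ≤ C)
    (iF : ∫ x, F (Z 1 x) ∂ν = ∫ x, F x ∂ν) (iH : ∀ t, ∫ x, H (Z t x) ∂ν = ∫ x, H x ∂ν)
    (le : ∀ x, F (Z 1 x) - F x ≤ ∫ t in (0 : ℝ)..1, H (Z t x)) : 0 ≤ ∫ x, H x ∂ν := by
  have m1 : Measurable (Z 1) := hZ.comp (measurable_const.prodMk measurable_id)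
  have j0 : Integrable F ν := .of_bound mF.aestronglyMeasurable C (.of_forall bF)
  have j1 : Integrable (fun x => F (Z 1 x)) ν :=
    .of_bound (mF.comp m1).aestronglyMeasurable C (.of_forall fun _ => bF _)
  have j2 : Integrable (uncurry fun x t => H (Z t x)) (ν.prod (volume.restrict (Ioc (0 : ℝ) 1))) :=
    .of_bound (mH.comp (hZ.comp measurable_swap)).aestronglyMeasurable C
      (.of_forall fun _ => bH _)
  have k := integral_mono (j1.sub j0) j2.integral_prod_left fun x => by
    have := le x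
    rw [intervalIntegral.integral_of_le zero_le_one] at this
    exact this
  have k2 := integral_integral_swap j2
  simp only [iH, integral_const, MeasurableSet.univ, measureReal_restrict_apply, univ_inter,
    Real.volume_real_Ioc_of_le zero_le_one, sub_zero, one_smul] at k2
  rw [integral_sub' j1 j0, iF, sub_self] at k
  exact k.trans_eq k2

/-- Polar coordinates with the weight `‖v‖`. -/
theorem polar {E : Type} [NormedAddCommGroup E] [NormedSpace ℝ E] [FiniteDimensional ℝ E]
    [Nontrivial E] [MeasurableSpace E] [BorelSpace E] (μ : Measure E) [μ.IsAddHaarMeasure]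
    (w : E → ℝ) (hw : ∫ s : sphere (0 : E) 1, w s ∂μ.toSphere ≤ 0) :
    ∫ v in ball (0 : E) 1, ‖v‖ * w (‖v‖⁻¹ • v) ∂μ ≤ 0 := by
  let χ : Ioi (0 : ℝ) → ℝ := (Iio (⟨1, mem_Ioi.2 one_pos⟩ : Ioi (0 : ℝ))).indicator fun r => r.1
  have h1 := μ.measurePreserving_homeomorphUnitSphereProd.integral_comp
    (Homeomorph.measurableEmbedding _) fun z => w z.1 * χ z.2
  have h2 : 0 ≤ ∫ r, χ r ∂Measure.volumeIoiPow (Module.finrank ℝ E - 1) :=
    integral_nonneg fun r => indicator_nonneg (fun r _ => le_of_lt r.2) r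
  rw [integral_prod_mul (fun s : sphere (0 : E) 1 => w s) χ] at h1
  refine le_of_eq_of_le ?_ (h1.trans_le (mul_nonpos_of_nonpos_of_nonneg hw h2))
  rw [← integral_indicator measurableSet_ball]
  refine ((congrArg (integral · _) (restrict_compl_singleton 0)).symm.trans
    (integral_subtype_comap (measurableSet_singleton _).compl _).symm).trans ?_
  refine integral_congr_ae (.of_forall fun x => ?_)
  have e : (homeomorphUnitSphereProd E x).2 ∈ Iio (⟨1, mem_Ioi.2 one_pos⟩ : Ioi (0 : ℝ)) ↔
      x.1 ∈ ball (0 : E) 1 := by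
    rw [mem_Iio, ← Subtype.coe_lt_coe, homeomorphUnitSphereProd_apply_snd_coe, mem_ball_zero_iff]
  by_cases h : x.1 ∈ ball (0 : E) 1
  · simp only [χ, indicator_of_mem h, indicator_of_mem (e.2 h),
      homeomorphUnitSphereProd_apply_fst_coe, homeomorphUnitSphereProd_apply_snd_coe, mul_comm]
  · simp only [χ, indicator_of_notMem h, indicator_of_notMem (mt e.1 h), mul_zero]

end Pool.Agent.MP_3ee8cb_gt.D3.SI
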