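import Pool.Agent.MP_3ee8cb_gt.D3.Spec
import Pool.Agent.MP_3ee8cb_gt.D3SI.Abs

/-! The averaging step over the closed manifold. -/

namespace Pool.Agent.MP_3ee8cb_gt.D3

open Set MeasureTheory Function Metric Filter Topology

noncomputable section

namespace SI

variable {m : MF} {Γ : Type} [Group Γ] [MulAction Γ V] {O : Γ → V → V ≃ₗᵢ[ℝ] V}

/-- The Riemannian measure. -/
def nu (m : MF) : Measure V := volume.withDensity fun x => ENNReal.ofReal |(m.S x).det|

/-- The Liouville measure on short vectors. -/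
def mu (m : MF) : Measure (V × V) := ((nu m).prod volume).restrict (univ ×ˢ ball 0 1)

/-- The action on vectors. -/
def ac (O : Γ → V → V ≃ₗᵢ[ℝ] V) (γ : Γ) (z : V × V) : V × V := (γ • z.1, O γ z.1 z.2)

instance : SFinite (nu m) := by unfold nu; infer_instance

instance : SFinite (mu m) := by unfold mu; infer_instance

theorem cdet (h : m.OK) : Continuous fun x => |(m.S x).det| :=
  (ContinuousLinearMap.continuous_det.comp h.cS.continuous).abs

theorem det_ne (h : m.OK) (x : V) : (m.S x).det ≠ 0 := by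
  have e : (m.S x : V →ₗ[ℝ] V) ∘ₗ (m.R x : V →ₗ[ℝ] V) = LinearMap.id :=
    LinearMap.ext fun a => h.SR x a
  have := congrArg LinearMap.det e
  rw [LinearMap.det_comp, LinearMap.det_id] at this
  exact left_ne_zero_of_mul_eq_one this

theorem abs_det (L : V ≃ₗᵢ[ℝ] V) : |LinearMap.det (L.toLinearIsometry.toLinearMap)| = 1 := by
  rw [← L.toLinearIsometry.normDet_eq_one, LinearMap.normDet_eq_norm_det, Real.norm_eq_abs]

theorem mp_base (A : Act m Γ O) (γ : Γ) : MeasurePreserving (fun x : V => γ • x) (nu m) (nu m) := by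
  have c : ContDiff ℝ 1 fun x : V => γ • x :=
    ((A.c1 γ).comp (contDiff_id.prodMk (contDiff_const (c := (0 : V))))).fst
  refine mp_of_det volume _ (c.differentiable one_ne_zero) (MulAction.bijective γ) _ fun x => ?_
  have e : (m.S (γ • x) : V →ₗ[ℝ] V) ∘ₗ (fderiv ℝ (fun y : V => γ • y) x : V →ₗ[ℝ] V) =
      (O γ x).toLinearIsometry.toLinearMap ∘ₗ (m.S x : V →ₗ[ℝ] V) :=
    LinearMap.ext fun u => A.der γ x u
  have := congrArg (fun L => |LinearMap.det L|) e
  simp only [LinearMap.det_comp, abs_mul, abs_det, one_mul] at this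
  exact this

theorem mp_res {f : V × V → V × V} (hf : MeasurePreserving f ((nu m).prod volume)
    ((nu m).prod volume)) (hn : ∀ z, ‖(f z).2‖ = ‖z.2‖) : MeasurePreserving f (mu m) (mu m) := by
  have := hf.restrict_preimage (s := univ ×ˢ ball 0 1) (MeasurableSet.univ.prod measurableSet_ball)
  have e : f ⁻¹' (univ ×ˢ ball 0 1) = univ ×ˢ ball 0 1 := by
    ext z
    simp only [mem_preimage, mem_prod, mem_univ, true_and, mem_ball_zero_iff, hn]
  rwa [e] at this

theorem mp_ac (A : Act m Γ O) (γ : Γ) : MeasurePreserving (ac O γ) (mu m) (mu m) :=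
  mp_res ((mp_base A γ).skew_product (g := fun x v => O γ x v)
    (A.c1 γ).continuous.snd.measurable (.of_forall fun x => (O γ x).measurePreserving.map_eq))
    fun z => (O γ z.1).norm_map z.2

theorem cZ (h : m.OK) (t : ℝ) : ContDiff ℝ 1 (m.Z t) :=
  h.cZ.comp (contDiff_const.prodMk contDiff_id)

/-- The flow as a measurable equivalence. -/
def fl (h : m.OK) (t : ℝ) : (V × V) ≃ᵐ (V × V) where
  toFun := m.Z t
  invFun := m.Z (-t)
  left_inv z := by rw [← h.add, neg_add_cancel, h.zero]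
  right_inv z := by rw [← h.add, add_neg_cancel, h.zero]
  measurable_toFun := (cZ h t).continuous.measurable
  measurable_invFun := (cZ h (-t)).continuous.measurable

theorem mp_fl (h : m.OK) (j : m.Jac) (t : ℝ) : MeasurePreserving (fl h t) (mu m) (mu m) := by
  refine mp_res ?_ (j.norm t)
  unfold nu
  rw [prod_withDensity_left (cdet h).measurable.ennreal_ofReal]
  exact mp_of_det (volume.prod volume) (m.Z t) ((cZ h t).differentiable one_ne_zero)
    (fl h t).bijective (fun z => |(m.S z.1).det|) fun z => j.vol z t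

/-- Short nonzero vectors. -/
def B : Set (V × V) := {z | z.2 ≠ 0 ∧ ‖z.2‖ < 1}

/-- Normalisation. -/
def nr (z : V × V) : V × V := (z.1, ‖z.2‖⁻¹ • z.2)

/-- The homogeneous extension. -/
def ex (u : V × V → ℝ) : V × V → ℝ := B.indicator fun z => u (nr z)

theorem oB : IsOpen B := (isOpen_ne_fun continuous_snd continuous_const).inter
  (isOpen_lt continuous_snd.norm continuous_const)

theorem nr_unit {z : V × V} (hz : z.2 ≠ 0) : ‖(nr z).2‖ = 1 := norm_smul_inv_norm hz

theorem c_nr {u : V × V → ℝ} (hu : ContinuousOn u {z | ‖z.2‖ = 1}) :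
    ContinuousOn (fun z => u (nr z)) B :=
  hu.comp (continuousOn_fst.prodMk ((continuous_snd.norm.continuousOn.inv₀
    fun _ hz => norm_ne_zero_iff.2 hz.1).smul continuousOn_snd)) fun _ hz => nr_unit hz.1

theorem c_ex {u : V × V → ℝ} (hu : ContinuousOn u {z | ‖z.2‖ = 1}) : ContinuousOn (ex u) B :=
  (c_nr hu).congr fun _ hz => indicator_of_mem hz _

theorem m_ex {u : V × V → ℝ} (hu : ContinuousOn u {z | ‖z.2‖ = 1}) : Measurable (ex u) := by
  classical
  have := (c_nr hu).measurable_piecewise (g := 0) continuousOn_const oB.measurableSet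
  rwa [piecewise_eq_indicator] at this

theorem b_ex (A : Act m Γ O) {u : V × V → ℝ} (hu : ContinuousOn u {z | ‖z.2‖ = 1})
    (hi : ∀ (γ : Γ) (z : V × V), ‖z.2‖ = 1 → u (ac O γ z) = u z) :
    ∃ C, 0 ≤ C ∧ ∀ z, |ex u z| ≤ C := by
  obtain ⟨K, hK, cov⟩ := A.cpt
  obtain ⟨C, hC⟩ := (hK.prod (isCompact_sphere (0 : V) 1)).exists_bound_of_continuousOn
    (hu.mono fun z hz => mem_sphere_zero_iff_norm.1 hz.2)
  refine ⟨max C 0, le_max_right _ _, fun z => ?_⟩
  by_cases hz : z ∈ B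
  · obtain ⟨γ, hγ⟩ := cov z.1
    rw [ex, indicator_of_mem hz, ← hi γ _ (nr_unit hz.1)]
    have hn : ‖(ac O γ (nr z)).2‖ = 1 := ((O γ z.1).norm_map (nr z).2).trans (nr_unit hz.1)
    exact (hC (ac O γ (nr z)) (mk_mem_prod hγ (mem_sphere_zero_iff_norm.2 hn))).trans
      (le_max_left _ _)
  · rw [ex, indicator_of_notMem hz, abs_zero]
    exact le_max_right _ _

theorem B_iff {z w : V × V} (h : ‖w.2‖ = ‖z.2‖) : w ∈ B ↔ z ∈ B := by
  change w.2 ≠ 0 ∧ ‖w.2‖ < 1 ↔ z.2 ≠ 0 ∧ ‖z.2‖ < 1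
  rw [← norm_ne_zero_iff, h, norm_ne_zero_iff]

theorem i_ex {u : V × V → ℝ} (hi : ∀ (γ : Γ) (z : V × V), ‖z.2‖ = 1 → u (ac O γ z) = u z)
    (γ : Γ) (z : V × V) : ex u (ac O γ z) = ex u z := by
  have hn : ‖(ac O γ z).2‖ = ‖z.2‖ := (O γ z.1).norm_map z.2
  by_cases hz : z ∈ B
  · rw [ex, indicator_of_mem hz, indicator_of_mem ((B_iff hn).2 hz), ← hi γ _ (nr_unit hz.1)]
    simp only [nr, hn]
    simp only [ac, map_smul]
  · rw [ex, indicator_of_notMem hz, indicator_of_notMem (mt (B_iff hn).1 hz)]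

theorem ex_fl (j : m.Jac) (u : V × V → ℝ) {z : V × V} (hz : z ∈ B) (t : ℝ) :
    ex u (m.Z t z) = u (m.Z (‖z.2‖ * t) (nr z)) := by
  have h0 := norm_ne_zero_iff.2 hz.1
  have e : m.Z t z = m.Z t (z.1, ‖z.2‖ • ‖z.2‖⁻¹ • z.2) := by rw [smul_inv_smul₀ h0]
  rw [ex, indicator_of_mem ((B_iff (j.norm t z)).2 hz), nr, j.norm, e, j.scale,
    inv_smul_smul₀ h0]
  rfl

theorem line (h : m.OK) (j : m.Jac) {F H : V × V → ℝ} (hH : ContinuousOn H {z | ‖z.2‖ = 1})
    (hd : ∀ z : V × V, ‖z.2‖ = 1 → ∃ d, HasDerivAt (fun t => F (m.Z t z)) d 0 ∧ d ≤ H z)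
    (z : V × V) : ex F (m.Z 1 z) - ex F z ≤
      ∫ t in (0 : ℝ)..1, ‖(m.Z t z).2‖ * ex H (m.Z t z) := by
  by_cases hz : z ∈ B
  swap
  · have e : ∀ (u : V × V → ℝ) t, ex u (m.Z t z) = 0 := fun u t =>
      indicator_of_notMem (mt (B_iff (j.norm t z)).1 hz) _
    have e0 : ex F z = 0 := indicator_of_notMem hz _
    simp only [e, e0, mul_zero, intervalIntegral.integral_zero, sub_self, le_refl]
  have un : ∀ s, ‖(m.Z s (nr z)).2‖ = 1 := fun s => (j.norm s _).trans (nr_unit hz.1)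
  choose d hd1 hd2 using fun s => hd _ (un s)
  have d1 : ∀ s, HasDerivAt (fun t => F (m.Z t (nr z))) (d s) s := fun s => by
    have := HasDerivAt.comp_sub_const s s (f := fun t => F (m.Z t (m.Z s (nr z))))
      (by rw [sub_self]; exact hd1 s)
    simpa only [← h.add, sub_add_cancel] using this
  have d2 : ∀ t, HasDerivAt (fun t => F (m.Z (‖z.2‖ * t) (nr z))) (d (‖z.2‖ * t) * ‖z.2‖) t :=
    fun t => (d1 (‖z.2‖ * t)).comp t (hasDerivAt_const_mul ‖z.2‖)
  have cH : Continuous fun t => ‖z.2‖ * H (m.Z (‖z.2‖ * t) (nr z)) :=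
    continuous_const.mul (hH.comp_continuous (h.cZ.continuous.comp
      ((continuous_const.mul continuous_id).prodMk continuous_const)) fun t => un _)
  have k := intervalIntegral.sub_le_integral_of_hasDeriv_right_of_le zero_le_one
    (fun t _ => (d2 t).continuousAt.continuousWithinAt) (fun t _ => (d2 t).hasDerivWithinAt)
    cH.integrableOn_Icc fun t _ => by
      rw [mul_comm]
      exact mul_le_mul_of_nonneg_left (hd2 _) (norm_nonneg _)
  have e0 := ex_fl j F hz 0
  rw [h.zero] at e0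
  simp only [ex_fl j _ hz, e0, j.norm]
  exact k

theorem b_mul {u : V × V → ℝ} {C : ℝ} (h0 : 0 ≤ C) (hC : ∀ z, |ex u z| ≤ C) (z : V × V) :
    |‖z.2‖ * ex u z| ≤ C := by
  by_cases hz : z ∈ B
  · rw [abs_mul, abs_norm]
    exact (mul_le_of_le_one_left (abs_nonneg _) hz.2.le).trans (hC z)
  · rw [ex, indicator_of_notMem hz, mul_zero, abs_zero]
    exact h0

end SI

open SI

theorem sINT : SINT := by
  intro m Γ _ _ O F G q h j A fd cF cG cq inv hd hG z hz
  obtain ⟨_, fd⟩ := fd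
  obtain ⟨D, mD, bD, nD, cov, un⟩ := fd z.1
  have mD' : MeasurableSet (D ×ˢ (univ : Set V)) := mD.prod .univ
  have el : (mu m).restrict (D ×ˢ univ) = ((nu m).prod volume).restrict (D ×ˢ ball 0 1) := by
    rw [mu, Measure.restrict_restrict mD', prod_inter_prod, inter_univ, univ_inter]
  have fin : IsFiniteMeasure ((nu m).restrict D) := by
    refine isFiniteMeasure_restrict.2 (ne_of_lt ?_)
    have : IsLocallyFiniteMeasure (nu m) := .withDensity_ofReal (cdet h)
    exact bD.measure_lt_top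
  have fb : IsFiniteMeasure ((volume : Measure V).restrict (ball 0 1)) :=
    isFiniteMeasure_restrict.2 measure_ball_lt_top.ne
  have fl' : IsFiniteMeasure ((mu m).restrict (D ×ˢ univ)) := by
    rw [el, ← Measure.prod_restrict]
    infer_instance
  have av : ∀ (u : V × V → ℝ), (∀ γ z, u (ac O γ z) = u z) → ∀ t,
      ∫ x in D ×ˢ univ, u (m.Z t x) ∂mu m = ∫ x in D ×ˢ univ, u x ∂mu m := fun u hu t =>
    avg (mu m) (ac O) (fun x => by simp only [ac, one_smul, A.one])
      (fun γ δ x => by simp only [ac, mul_smul, A.mul]) (mp_ac A) _ mD'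
      (fun x => (cov x.1).imp fun γ hγ => ⟨hγ, trivial⟩) (fun γ x h1 h2 => un γ x.1 h1.1 h2.1)
      (fl h t) (mp_fl h j t) (fun γ x => A.flow γ t x) u hu
  have iF := fun γ z hz => (inv γ z hz).1
  have iG := fun γ z hz => (inv γ z hz).2.1
  have iq := fun γ z hz => (inv γ z hz).2.2
  have iH : ∀ (γ : Γ) (z : V × V), ‖z.2‖ = 1 → (G - q) (ac O γ z) = (G - q) z := fun γ z hz =>
    congrArg₂ (· - ·) (iG γ z hz) (iq γ z hz)
  obtain ⟨C1, p1, b1⟩ := b_ex A cF iF
  obtain ⟨C2, p2, b2⟩ := b_ex A (cG.sub cq) iH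
  obtain ⟨C3, p3, b3⟩ := b_ex A cG iG
  obtain ⟨C4, p4, b4⟩ := b_ex A cq iq
  have mn : Measurable fun z : V × V => ‖z.2‖ := measurable_snd.norm
  have k := flow_le ((mu m).restrict (D ×ˢ univ)) m.Z h.cZ.continuous.measurable (ex F)
    (fun z => ‖z.2‖ * ex (G - q) z) (m_ex cF) (mn.mul (m_ex (cG.sub cq))) (max C1 C2)
    (fun z => (b1 z).trans (le_max_left _ _)) (fun z => (b_mul p2 b2 z).trans (le_max_right _ _))
    (av _ (i_ex iF) 1) (av (fun z => ‖z.2‖ * ex (G - q) z) fun γ z => by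
      rw [i_ex iH]
      exact congrArg (· * _) ((O γ z.1).norm_map z.2))
    (line h j (cG.sub cq) fun z hz => (hd z hz).2)
  have jG : Integrable (fun z : V × V => ‖z.2‖ * ex G z) ((mu m).restrict (D ×ˢ univ)) :=
    .of_bound (mn.mul (m_ex cG)).aestronglyMeasurable C3 (.of_forall (b_mul p3 b3))
  have jq : Integrable (fun z : V × V => ‖z.2‖ * ex q z) ((mu m).restrict (D ×ˢ univ)) :=
    .of_bound (mn.mul (m_ex cq)).aestronglyMeasurable C4 (.of_forall (b_mul p4 b4))
  have e1 : (fun z : V × V => ‖z.2‖ * ex (G - q) z) =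
      fun z => ‖z.2‖ * ex G z - ‖z.2‖ * ex q z := by
    funext z
    by_cases hz : z ∈ B
    · simp only [ex, indicator_of_mem hz, Pi.sub_apply, mul_sub]
    · simp only [ex, indicator_of_notMem hz, mul_zero, sub_self]
  rw [e1, integral_sub jG jq] at k
  have k1 : ∫ z in D ×ˢ univ, ‖z.2‖ * ex G z ∂mu m ≤ 0 := by
    rw [el, ← Measure.prod_restrict] at jG ⊢
    rw [integral_prod _ jG]
    refine integral_nonpos fun x => le_of_eq_of_le ?_ (polar volume (fun a => G (x, a)) (hG x))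
    refine setIntegral_congr_fun measurableSet_ball fun v hv => ?_
    by_cases h0 : v = 0
    · simp only [h0, norm_zero, zero_mul]
    · have hb : (x, v) ∈ B := And.intro h0 (mem_ball_zero_iff.1 hv)
      simp only [ex, indicator_of_mem hb, nr]
  have nq : 0 ≤ fun z : V × V => ‖z.2‖ * ex q z := fun z => mul_nonneg (norm_nonneg _)
    (indicator_nonneg (fun z hz => (hd _ (nr_unit hz.1)).1) z)
  have k2 := (integral_eq_zero_iff_of_nonneg nq jq).1
    (le_antisymm (by linarith) (integral_nonneg nq))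
  have op : (nu m).IsOpenPosMeasure := (withDensity_absolutelyContinuous'
    (cdet h).measurable.ennreal_ofReal.aemeasurable (.of_forall fun x =>
      (ENNReal.ofReal_pos.2 (abs_pos.2 (det_ne h x))).ne')).isOpenPosMeasure
  rw [el] at k2
  have oW : IsOpen (B ∩ interior D ×ˢ univ) := oB.inter (isOpen_interior.prod isOpen_univ)
  have sub : B ∩ interior D ×ˢ univ ⊆ D ×ˢ ball 0 1 :=
    fun w hw => ⟨interior_subset hw.2.1, mem_ball_zero_iff.2 hw.1.2⟩
  have k3 := Measure.eqOn_open_of_ae_eq (ae_restrict_of_ae_restrict_of_subset sub k2) oW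
    (continuous_snd.norm.continuousOn.mul ((c_ex cq).mono inter_subset_left)) continuousOn_const
  have n2 : ‖(2⁻¹ : ℝ) • z.2‖ = 2⁻¹ := by rw [norm_smul, hz, mul_one, norm_inv, Real.norm_two]
  have hb : (z.1, (2⁻¹ : ℝ) • z.2) ∈ B :=
    And.intro (norm_ne_zero_iff.1 (by rw [n2]; norm_num)) (by rw [n2]; norm_num)
  have k4 := k3 (x := (z.1, (2⁻¹ : ℝ) • z.2)) ⟨hb, mem_interior_iff_mem_nhds.2 nD, trivial⟩
  simp only [ex, indicator_of_mem hb, nr, n2, inv_inv, smul_inv_smul₀ (two_ne_zero' ℝ),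
    Pi.zero_apply, mul_eq_zero, inv_eq_zero, two_ne_zero, false_or] at k4
  exact k4

end

end Pool.Agent.MP_3ee8cb_gt.D3
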